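import Mathlib
import Pool.Agent.Helper99.Harb.Upper2
import Pool.Agent.Helper99.Harb.Upper3
import Pool.Agent.Helper99.Harb.Lower2
import Pool.Agent.Helper99.Harb.Lower3

/-!
# The Harborth constant of all groups of large exponent

`G` is a finite abelian group with exponent `κ` and order `m κ`, `m ≥ 3`, and `κ` is large compared with `m`.

* `κ + m - 1 ≤ τ^(G, κ) ≤ κ + 2 m - 3`.
* If `q` divides `κ`, `q < (a + 1) m` and `4 m q ≤ κ`, then `τ^(G, κ) ≥ κ + ⌊(q - 2) / a⌋` (a set in `a + 1`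
  consecutive cosets of a subgroup with cyclic quotient of order `q`).
* For `t > (3 m - 2) / 2` this with `a = 1` is the only reason for `τ^(G, κ) ≥ κ + t`:
  `κ + t ≤ τ^(G, κ)` if and only if `κ` has a divisor `q` with `t + 2 ≤ q < 2 m`. So
  if the largest divisor `q` of `κ` with `q < 2 m` satisfies `2 q > 3 m`, then `τ^(G, κ) = κ + q - 2`.
* If `τ^(G, κ) ≥ κ + t` with `t ≥ m + 1`, then `|G|` has a divisor `N` with
  `t (c - 1) + 2 ≤ N ≤ m c` for some `2 ≤ c < m`. So `τ^(G, κ)` is `κ + m - 1` or `κ + m` if `|G|` has no divisor `N`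
  with `(m + 1) (c - 1) + 2 ≤ N ≤ m c`, `2 ≤ c < m` (for example if `m = 5` and `κ` is prime to `6`).

For `m = 3` the exact value for `Z_3 × Z_{3k}` is in the library (MP_e67b39_co).

Proof of the upper bound. Let `|A| = κ + t`. Roth's theorem: all but few elements `a` of `A` are midpoints
of many pairs of `A`, so sums of `n ≤ t` such elements (the set `J`) are sums of `n` distinct elements of `A`.
If `t J = G` then the sum of `A` is a sum of `t` distinct elements of `A`, and we are done. If not, Kneser's theorem gives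
a subgroup `K` of bounded index with `J` in one or in two cosets of `K`. One coset: the Davenport constant of `G / K`
and Kneser's theorem for fewer summands in `K`. Two cosets: `G / K` is cyclic of order `q`, `t + 2 ≤ q ≤ 2 m`, and for
`q = 2 m` the at least `t` elements of `A` outside of the two cosets fill the missing cosets.
-/

namespace Pool.Agent.Results.MP_f9a021_co.LargeExponent

open Finset

/-- `A` is weakly zero-`h`-sum-free: no `h` pairwise distinct elements of `A` have sum zero. -/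
def WeakFree {G : Type} [AddCommGroup G] (A : Finset G) (h : ℕ) : Prop :=
  ∀ S ⊆ A, S.card = h → ∑ x ∈ S, x ≠ 0

/-- `τ^(G, h)`: the largest size of a weakly zero-`h`-sum-free subset of `G`. -/
noncomputable def tau (G : Type) [AddCommGroup G] (h : ℕ) : ℕ :=
  sSup {n | ∃ A : Finset G, WeakFree A h ∧ A.card = n}

theorem le_tau {G : Type} [AddCommGroup G] [Finite G] {h n : ℕ}
    (hA : ∃ A : Finset G, WeakFree A h ∧ A.card = n) : n ≤ tau G h := by
  classical
  have := Fintype.ofFinite G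
  exact le_csSup ⟨Fintype.card G, by rintro k ⟨B, -, rfl⟩; exact card_le_univ B⟩ hA

theorem exists_of_le_tau {G : Type} [AddCommGroup G] [Finite G] {h n : ℕ} (hn : 0 < n)
    (hle : n ≤ tau G h) : ∃ A : Finset G, WeakFree A h ∧ A.card = n := by
  classical
  have := Fintype.ofFinite G
  have hb : BddAbove {n | ∃ A : Finset G, WeakFree A h ∧ A.card = n} :=
    ⟨Fintype.card G, by rintro k ⟨B, -, rfl⟩; exact card_le_univ B⟩
  have hne : {n | ∃ A : Finset G, WeakFree A h ∧ A.card = n}.Nonempty := by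
    by_contra hcon
    rw [Set.not_nonempty_iff_eq_empty] at hcon
    rw [tau, hcon, csSup_empty] at hle
    simp at hle
    omega
  obtain ⟨A, hA, hc⟩ := Nat.sSup_mem hne hb
  obtain ⟨B, hB, hBc⟩ := exists_subset_card_eq (s := A) (n := n) (by rw [hc]; exact hle)
  exact ⟨B, fun S hS => hA S (hS.trans hB), hBc⟩

theorem main (m : ℕ) (hm : 3 ≤ m) : ∃ κ₀ : ℕ, ∀ κ : ℕ, κ₀ ≤ κ →
    ∀ (G : Type) [AddCommGroup G] [Finite G], Nat.card G = m * κ → AddMonoid.exponent G = κ →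
      κ + m - 1 ≤ tau G κ ∧
      tau G κ ≤ κ + 2 * m - 3 ∧
      (∀ q a : ℕ, q ∣ κ → 1 ≤ a → q < (a + 1) * m → 4 * m * q ≤ κ → κ + (q - 2) / a ≤ tau G κ) ∧
      (∀ t : ℕ, 3 * m < 2 * (t + 1) →
        (κ + t ≤ tau G κ ↔ ∃ q : ℕ, q ∣ κ ∧ t + 2 ≤ q ∧ q < 2 * m)) ∧
      (∀ q : ℕ, q ∣ κ → q < 2 * m → 3 * m < 2 * q → (∀ r : ℕ, r ∣ κ → r < 2 * m → r ≤ q) →
        tau G κ = κ + q - 2) ∧
      (∀ t : ℕ, m + 1 ≤ t → κ + t ≤ tau G κ →
        ∃ N c : ℕ, 2 ≤ c ∧ c < m ∧ N ∣ m * κ ∧ t * (c - 1) + 2 ≤ N ∧ N ≤ m * c) := by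
  classical
  have hup : ∀ t : ℕ, ∃ k0 : ℕ, 3 * m ≤ 2 * t + 1 → t + 2 ≤ 2 * m → ∀ κ, k0 ≤ κ →
      ∀ (G : Type) [AddCommGroup G] [DecidableEq G] [Fintype G],
      (univ.filter fun x : G => x + x = 0).card ≤ 2 * m → Fintype.card G = m * κ →
      (∀ x : G, κ • x = 0) → (∀ q, q ∣ κ → t + 2 ≤ q → q < 2 * m → False) →
      ∀ A : Finset G, A.card = κ + t → ∃ R ⊆ A, R.card = t ∧ ∑ y ∈ R, y = ∑ y ∈ A, y := by
    intro t
    by_cases ht : 3 * m ≤ 2 * t + 1 ∧ t + 2 ≤ 2 * m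
    · obtain ⟨k0, h⟩ := Pool.Agent.Helper99.Harb.upper2 m t hm ht.1 ht.2
      exact ⟨k0, fun _ _ => h⟩
    · exact ⟨0, fun h h' => absurd ⟨h, h'⟩ ht⟩
  choose f hf using hup
  have hup3 : ∀ t : ℕ, ∃ k0 : ℕ, m + 1 ≤ t → ∀ κ, k0 ≤ κ →
      ∀ (G : Type) [AddCommGroup G] [DecidableEq G] [Fintype G],
      (univ.filter fun x : G => x + x = 0).card ≤ 2 * m → Fintype.card G = m * κ →
      (∀ x : G, κ • x = 0) →
      (∀ N c, 2 ≤ c → N ∣ m * κ → t * c + 2 ≤ N + t → N ≤ m * c → False) →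
      ∀ A : Finset G, A.card = κ + t → ∃ R ⊆ A, R.card = t ∧ ∑ y ∈ R, y = ∑ y ∈ A, y := by
    intro t
    by_cases ht : m + 1 ≤ t
    · obtain ⟨k0, h⟩ := Pool.Agent.Helper99.Harb.upper3 m t hm ht
      exact ⟨k0, fun _ => h⟩
    · exact ⟨0, fun h => absurd h ht⟩
  choose g hg using hup3
  refine ⟨∑ t ∈ range (2 * m), f t + ∑ t ∈ range (2 * m), g t + 8 * m * m + 1,
    fun κ hκ G _ _ hG hexp => ?_⟩
  have hκ0 : 0 < κ := by omega
  have := Fintype.ofFinite G
  have hGc : Fintype.card G = m * κ := by rw [← hG, Nat.card_eq_fintype_card]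
  have low : ∀ q t : ℕ, q ∣ κ → t + 2 ≤ q → q < 2 * m → κ + t ≤ tau G κ := by
    intro q t h1 h2 h3
    refine le_tau (Pool.Agent.Helper99.Harb.lower G m κ q t hGc hexp h1 h2 h3 ?_)
    have e1 : q * (q + t) ≤ (2 * m) * (4 * m) := Nat.mul_le_mul (by omega) (by omega)
    have e2 : (2 * m) * (4 * m) = 8 * m * m := by ring
    omega
  have low2 : κ + m - 1 ≤ tau G κ := by
    have e1 : 2 * m * m ≤ 8 * m * m := Nat.mul_le_mul_right m (by omega)
    have := le_tau (Pool.Agent.Helper99.Harb.lower2 G m κ (by omega) hGc hexp (by omega))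
    omega
  have upA : ∀ t, 3 * m ≤ 2 * t + 1 → t + 2 ≤ 2 * m → κ + t ≤ tau G κ →
      ∃ q, q ∣ κ ∧ t + 2 ≤ q ∧ q < 2 * m := by
    intro t ht htm hle
    by_contra hcon
    obtain ⟨A, hA, hAc⟩ := exists_of_le_tau (by omega) hle
    have hft : f t ≤ ∑ t ∈ range (2 * m), f t :=
      single_le_sum (f := f) (fun i _ => Nat.zero_le _) (mem_range.2 (by omega))
    obtain ⟨R, hR, r1, r2⟩ := hf t ht htm κ (by omega) G
      (Pool.Agent.Helper99.Harb.tors2 G m κ hGc hexp hκ0) hGc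
      (fun x => by rw [← hexp]; exact AddMonoid.exponent_nsmul_eq_zero x)
      (fun q h1 h2 h3 => hcon ⟨q, h1, h2, h3⟩) A hAc
    refine hA (A \ R) sdiff_subset (by rw [card_sdiff_of_subset hR]; omega) ?_
    rw [sum_sdiff_eq_sub hR, r2, sub_self]
  have htop : tau G κ ≤ κ + 2 * m - 3 := by
    by_contra hlt
    obtain ⟨q, h1, h2, h3⟩ := upA (2 * m - 2) (by omega) (by omega) (by omega)
    omega
  have hiff : ∀ t : ℕ, 3 * m < 2 * (t + 1) →
      (κ + t ≤ tau G κ ↔ ∃ q : ℕ, q ∣ κ ∧ t + 2 ≤ q ∧ q < 2 * m) := by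
    intro t ht
    constructor
    · intro hle
      exact upA t (by omega) (by omega) hle
    · rintro ⟨q, h1, h2, h3⟩
      exact low q t h1 h2 h3
  have h3rd : ∀ t : ℕ, m + 1 ≤ t → κ + t ≤ tau G κ →
      ∃ N c : ℕ, 2 ≤ c ∧ c < m ∧ N ∣ m * κ ∧ t * (c - 1) + 2 ≤ N ∧ N ≤ m * c := by
    intro t ht hle
    by_contra hcon
    obtain ⟨A, hA, hAc⟩ := exists_of_le_tau (by omega) hle
    have hft : g t ≤ ∑ t ∈ range (2 * m), g t :=
      single_le_sum (f := g) (fun i _ => Nat.zero_le _) (mem_range.2 (by omega))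
    obtain ⟨R, hR, r1, r2⟩ := hg t ht κ (by omega) G
      (Pool.Agent.Helper99.Harb.tors2 G m κ hGc hexp hκ0) hGc
      (fun x => by rw [← hexp]; exact AddMonoid.exponent_nsmul_eq_zero x)
      (fun N c h1 h2 h3 h4 => by
        obtain ⟨c', rfl⟩ : ∃ c', c = c' + 1 := ⟨c - 1, by omega⟩
        have e1 : t * c' + 2 ≤ N := by
          rw [mul_add, mul_one] at h3; omega
        refine hcon ⟨N, c' + 1, h1, ?_, h2, by rw [Nat.add_sub_cancel]; exact e1, h4⟩
        by_contra hlt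
        have e2 := Nat.mul_le_mul_right c' ht
        have e3 : (m + 1) * c' = m * c' + c' := by ring
        have e4 : m * (c' + 1) = m * c' + m := by ring
        omega) A hAc
    refine hA (A \ R) sdiff_subset (by rw [card_sdiff_of_subset hR]; omega) ?_
    rw [sum_sdiff_eq_sub hR, r2, sub_self]
  refine ⟨low2, htop, fun q a h1 h2 h3 h4 => ?_, hiff, fun q h1 h2 h3 h4 => le_antisymm ?_ ?_, h3rd⟩
  · obtain ⟨k, hk⟩ := h1
    have hdm := Nat.div_add_mod (q - 2) a
    have hml := Nat.mod_lt (q - 2) (show 0 < a by omega)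
    set t := (q - 2) / a with ht
    rcases Nat.eq_zero_or_pos t with h0 | h0
    · rw [h0]; omega
    have hta : a * t + 2 ≤ q := by
      have : 0 < a * t := Nat.mul_pos (by omega) h0
      omega
    have hat : a ≤ a * t := Nat.le_mul_of_pos_right _ h0
    have hat' : t ≤ a * t := Nat.le_mul_of_pos_left _ (by omega)
    have hq0 : 0 < q := by omega
    have hkm : 4 * m ≤ k := by
      have : q * (4 * m) ≤ q * k := by rw [← hk]; linarith [h4, mul_comm (4 * m) q]
      exact Nat.le_of_mul_le_mul_left this hq0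
    have htm : t < 2 * m := by
      by_contra hlt
      have e1 := Nat.mul_le_mul_left a (not_lt.1 hlt)
      have e2 : (a + 1) * m ≤ a * (2 * m) := by nlinarith
      omega
    have hmk : 2 * m ≤ m * k := by nlinarith
    have h5 : κ + k ≤ (a + 1) * (m * k) := by
      have := Nat.mul_le_mul_right k (show q + 1 ≤ (a + 1) * m from h3)
      rw [hk]; nlinarith
    have h12 : 12 * q ≤ 4 * m * q := Nat.mul_le_mul_right q (by omega)
    exact le_tau (Pool.Agent.Helper99.Harb.lower3 G m κ q k a t hGc hexp hk (by omega) h2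
      (by rw [mul_comm]; exact hta) (by rw [add_mul, one_mul, mul_comm t a]; omega) (by omega)
      (by rw [show (a + 1) * (t + 1) = a * t + a + t + 1 by ring]; omega) (by omega) (by omega))
  · by_contra hlt
    obtain ⟨r, r1, r2, r3⟩ := (hiff (q - 1) (by omega)).1 (by omega)
    have := h4 r r1 r3
    omega
  · have := low q (q - 2) h1 (by omega) h2
    omega

/-- **Main theorem.** -/
theorem result (m : ℕ) (hm : 3 ≤ m) : ∃ κ₀ : ℕ, ∀ κ : ℕ, κ₀ ≤ κ →
    ∀ (G : Type) [AddCommGroup G] [Finite G], Nat.card G = m * κ → AddMonoid.exponent G = κ →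
      κ + m - 1 ≤ tau G κ ∧
      tau G κ ≤ κ + 2 * m - 3 ∧
      (∀ q a : ℕ, q ∣ κ → 1 ≤ a → q < (a + 1) * m → 4 * m * q ≤ κ → κ + (q - 2) / a ≤ tau G κ) ∧
      (∀ t : ℕ, 3 * m < 2 * (t + 1) →
        (κ + t ≤ tau G κ ↔ ∃ q : ℕ, q ∣ κ ∧ t + 2 ≤ q ∧ q < 2 * m)) ∧
      (∀ q : ℕ, q ∣ κ → q < 2 * m → 3 * m < 2 * q → (∀ r : ℕ, r ∣ κ → r < 2 * m → r ≤ q) →
        tau G κ = κ + q - 2) ∧
      (∀ t : ℕ, m + 1 ≤ t → κ + t ≤ tau G κ →
        ∃ N c : ℕ, 2 ≤ c ∧ c < m ∧ N ∣ m * κ ∧ t * (c - 1) + 2 ≤ N ∧ N ≤ m * c) :=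
  main m hm

end Pool.Agent.Results.MP_f9a021_co.LargeExponent
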