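import Mathlib

/-!
# Lower bounds for the Harborth constant of groups of rank two

For `1 < n₁`, `n₂ = n₁ L` and odd `L`:

* `τ^(Z_{n₁} × Z_{n₂}, n₂) ≥ n₁ + n₂ - 1` if `L ≥ 3` (for `n₁ = 3` this is Kiefer's bound; for odd `n₂` the known
  bound was `n₁ + n₂ - 2`);
* `τ^(Z_{n₁} × Z_{n₂}, n₂) ≥ n₁ + n₂` if `n₁` is even (the known bound was `n₁ + n₂ - 1`).

The sets are `Z_{n₁} × {0, …, L}`, without one element in the first case.
-/

namespace Pool.Agent.Results.MP_f9a021_co.RankTwoLowerBound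

open Finset

/-- `A` is weakly zero-`h`-sum-free: no `h` pairwise distinct elements of `A` have sum zero. -/
def WeakFree {G : Type} [AddCommGroup G] (A : Finset G) (h : ℕ) : Prop :=
  ∀ S ⊆ A, S.card = h → ∑ x ∈ S, x ≠ 0

/-- `τ^(G, h)`: the largest size of a weakly zero-`h`-sum-free subset of `G`. -/
noncomputable def tau (G : Type) [AddCommGroup G] (h : ℕ) : ℕ :=
  sSup {n | ∃ A : Finset G, WeakFree A h ∧ A.card = n}

theorem le_tau {G : Type} [AddCommGroup G] [Finite G] {h n : ℕ}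
    (hA : ∃ A : Finset G, WeakFree A h ∧ A.card = n) : n ≤ tau G h := by
  classical
  have := Fintype.ofFinite G
  exact le_csSup ⟨Fintype.card G, by rintro k ⟨B, -, rfl⟩; exact card_le_univ B⟩ hA

set_option linter.unusedSectionVars false

variable (a L : ℕ) [NeZero a] [NeZero (a * L)]

/-- The set `Z_a × {0, …, L}`. -/
def box : Finset (ZMod a × ZMod (a * L)) := (univ : Finset (ZMod a)) ×ˢ ((range (L + 1)).image fun i : ℕ => (i : ZMod (a * L)))

theorem val_cast (ha : 2 ≤ a) (hL : 1 ≤ L) {i : ℕ} (hi : i ≤ L) : ((i : ZMod (a * L))).val = i := by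
  apply ZMod.val_cast_of_lt
  nlinarith

theorem lev_inj (ha : 2 ≤ a) (hL : 1 ≤ L) :
    Set.InjOn (fun i : ℕ => (i : ZMod (a * L))) (range (L + 1) : Finset ℕ) := by
  intro i hi j hj h
  have hi' := mem_range.1 (mem_coe.1 hi)
  have hj' := mem_range.1 (mem_coe.1 hj)
  have := congrArg ZMod.val h
  simp only [] at this
  rwa [val_cast a L ha hL (by omega), val_cast a L ha hL (by omega)] at this

theorem box_card (ha : 2 ≤ a) (hL : 1 ≤ L) : (box a L).card = a * (L + 1) := by
  rw [box, card_product, card_univ, ZMod.card, card_image_of_injOn (lev_inj a L ha hL), card_range]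

theorem mem_box (ha : 2 ≤ a) (hL : 1 ≤ L) {g : ZMod a × ZMod (a * L)} :
    g ∈ box a L ↔ g.2.val ≤ L := by
  rw [box, mem_product, mem_image]
  constructor
  · rintro ⟨-, i, hi, h⟩
    have hi' := mem_range.1 hi
    rw [← h, val_cast a L ha hL (by omega)]; omega
  · intro h
    exact ⟨mem_univ _, g.2.val, mem_range.2 (by omega), ZMod.natCast_zmod_val _⟩

theorem lev_sum (ha : 2 ≤ a) (hL : 1 ≤ L) :
    2 * ∑ g ∈ box a L, g.2.val = a * L * (L + 1) := by
  have h1 : ∑ g ∈ box a L, g.2.val = a * ∑ i ∈ range (L + 1), i := by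
    rw [box, sum_product]
    show ∑ x : ZMod a, ∑ y ∈ (range (L + 1)).image fun i : ℕ => (i : ZMod (a * L)), y.val = _
    rw [sum_const, card_univ, ZMod.card, smul_eq_mul, sum_image (lev_inj a L ha hL)]
    congr 1
    exact sum_congr rfl fun i hi => val_cast a L ha hL (by have := mem_range.1 hi; omega)
  rw [h1, ← mul_assoc, mul_comm 2 a, mul_assoc, mul_comm 2, sum_range_id_mul_two]
  simp only [Nat.add_sub_cancel]
  ring

theorem snd_sum (S : Finset (ZMod a × ZMod (a * L))) :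
    (∑ g ∈ S, g).2 = ((∑ g ∈ S, g.2.val : ℕ) : ZMod (a * L)) := by
  rw [Prod.snd_sum]
  push_cast
  exact sum_congr rfl fun g _ => (ZMod.natCast_zmod_val _).symm

theorem two_sigma : ∑ x : ZMod a, x + ∑ x : ZMod a, x = 0 := by
  have h : ∑ x : ZMod a, x = ∑ x : ZMod a, -x := (Equiv.sum_comp (Equiv.neg (ZMod a)) fun x => x).symm
  rw [sum_neg_distrib] at h
  nth_rewrite 1 [h]
  exact neg_add_cancel _

theorem sigma_ne (hev : Even a) : ∑ x : ZMod a, x ≠ 0 := by
  intro h0
  obtain ⟨n, rfl⟩ : ∃ n, a = n + 1 := ⟨a - 1, by have := NeZero.pos a; omega⟩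
  have h1 : ∑ x : ZMod (n + 1), x = ((∑ i ∈ range (n + 1), i : ℕ) : ZMod (n + 1)) := by
    push_cast
    rw [← Fin.sum_univ_eq_sum_range (fun i => (i : ZMod (n + 1))) (n + 1)]
    exact sum_congr rfl fun x _ => (ZMod.natCast_zmod_val (n := n + 1) x).symm
  rw [h1, ZMod.natCast_eq_zero_iff] at h0
  obtain ⟨u, hu⟩ := h0
  have h2 := sum_range_id_mul_two (n + 1)
  rw [hu, Nat.add_sub_cancel, mul_assoc] at h2
  have h3 := Nat.eq_of_mul_eq_mul_left (Nat.succ_pos n) h2
  obtain ⟨v, hv⟩ := hev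
  omega

theorem dvd_lev {S : Finset (ZMod a × ZMod (a * L))} (h : ∑ g ∈ S, g = 0) :
    a * L ∣ ∑ g ∈ S, g.2.val := by
  have := snd_sum a L S
  rw [h, Prod.snd_zero] at this
  exact (ZMod.natCast_eq_zero_iff _ _).1 this.symm

theorem lower1 (ha : 2 ≤ a) (hL : 3 ≤ L) (hodd : Odd L) : a + a * L - 1 ≤ tau (ZMod a × ZMod (a * L)) (a * L) := by
  classical
  have hmem : ((0, 1) : ZMod a × ZMod (a * L)) ∈ box a L := by
    rw [mem_box a L ha (by omega)]
    have := val_cast a L ha (by omega) (i := 1) (by omega)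
    rw [Nat.cast_one] at this
    show (1 : ZMod (a * L)).val ≤ L
    omega
  have hv1 : ((0, 1) : ZMod a × ZMod (a * L)).2.val = 1 := by
    have := val_cast a L ha (by omega) (i := 1) (by omega)
    rwa [Nat.cast_one] at this
  refine le_tau ⟨(box a L).erase (0, 1), ?_, ?_⟩
  · intro S hS hc h0
    have h1 := dvd_lev a L h0
    have h2 := lev_sum a L ha (by omega)
    have h3 := add_sum_erase (box a L) (fun g => g.2.val) hmem
    have h4 := sum_sdiff (f := fun g : ZMod a × ZMod (a * L) => g.2.val) hS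
    have hcard : ((box a L).erase (0, 1) \ S).card = a - 1 := by
      rw [card_sdiff_of_subset hS, card_erase_of_mem hmem, box_card a L ha (by omega), hc, mul_add]
      omega
    have h5 := sum_le_card_nsmul ((box a L).erase (0, 1) \ S) (fun g => g.2.val) L fun g hg =>
        (mem_box a L ha (by omega)).1 (mem_of_mem_erase (mem_sdiff.1 hg).1)
    rw [hcard, smul_eq_mul] at h5
    rw [hv1] at h3
    obtain ⟨w, hw⟩ := hodd
    have h6 : a * L ∣ ∑ g ∈ (box a L).erase (0, 1) \ S, g.2.val + 1 := by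
      obtain ⟨u, hu⟩ := h1
      have h7 : ∑ g ∈ box a L, g.2.val = a * L * (w + 1) := by
        have : a * L * (L + 1) = 2 * (a * L * (w + 1)) := by rw [hw]; ring
        omega
      have h8 : a * L * (w + 1) = a * L * u + (∑ g ∈ (box a L).erase (0, 1) \ S, g.2.val + 1) := by
        omega
      exact (Nat.dvd_add_right (dvd_mul_right _ u)).1 (h8 ▸ dvd_mul_right _ _)
    have h9 := Nat.le_of_dvd (by omega) h6
    have h10 : (a - 1) * L + L = a * L := by
      obtain ⟨b, rfl⟩ : ∃ b, a = b + 1 := ⟨a - 1, by omega⟩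
      simp only [Nat.add_sub_cancel]; ring
    omega
  · rw [card_erase_of_mem hmem, box_card a L ha (by omega), mul_add]
    omega

theorem lower2 (ha : 2 ≤ a) (hL : 1 ≤ L) (hodd : Odd L) (hev : Even a) :
    a + a * L ≤ tau (ZMod a × ZMod (a * L)) (a * L) := by
  classical
  refine le_tau ⟨box a L, ?_, by rw [box_card a L ha hL]; ring⟩
  intro S hS hc h0
  have h1 := dvd_lev a L h0
  have h2 := lev_sum a L ha hL
  have h4 := sum_sdiff (f := fun g : ZMod a × ZMod (a * L) => g.2.val) hS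
  have hcard : (box a L \ S).card = a := by
    rw [card_sdiff_of_subset hS, box_card a L ha hL, hc, mul_add]
    omega
  have hle : ∀ g ∈ box a L \ S, g.2.val ≤ L := fun g hg => (mem_box a L ha hL).1 (mem_sdiff.1 hg).1
  have h5 := sum_le_card_nsmul (box a L \ S) (fun g => g.2.val) L hle
  rw [hcard, smul_eq_mul] at h5
  obtain ⟨w, hw⟩ := hodd
  have hdv : a * L ∣ ∑ g ∈ box a L \ S, g.2.val := by
    obtain ⟨u, hu⟩ := h1
    have h7 : ∑ g ∈ box a L, g.2.val = a * L * (w + 1) := by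
      have : a * L * (L + 1) = 2 * (a * L * (w + 1)) := by rw [hw]; ring
      omega
    have h8 : a * L * (w + 1) = a * L * u + ∑ g ∈ box a L \ S, g.2.val := by omega
    exact (Nat.dvd_add_right (dvd_mul_right _ u)).1 (h8 ▸ dvd_mul_right _ _)
  -- the first coordinate of the sum of the box
  have hfst : (∑ g ∈ box a L, g).1 = 0 := by
    rw [Prod.fst_sum, box, sum_product]
    show ∑ x : ZMod a, ∑ y ∈ (range (L + 1)).image fun i : ℕ => (i : ZMod (a * L)), x = 0
    simp only [sum_const]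
    rw [card_image_of_injOn (lev_inj a L ha hL), card_range, ← smul_sum,
      show L + 1 = 2 * (w + 1) by omega, mul_nsmul, two_nsmul, two_sigma, smul_zero]
  have hT : (∑ g ∈ box a L \ S, g).1 = 0 := by
    have := sum_sdiff (f := fun g : ZMod a × ZMod (a * L) => g) hS
    rw [h0, add_zero] at this
    rw [this, hfst]
  -- all elements have the same level
  have hall : ∃ y : ZMod (a * L), ∀ g ∈ box a L \ S, g.2 = y := by
    rcases Nat.eq_zero_or_pos (∑ g ∈ box a L \ S, g.2.val) with hz | hz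
    · refine ⟨0, fun g hg => ?_⟩
      exact (ZMod.val_eq_zero _).1 ((sum_eq_zero_iff.1 hz) g hg)
    · have he : ∑ g ∈ box a L \ S, g.2.val = ∑ g ∈ box a L \ S, L := by
        rw [sum_const, hcard, smul_eq_mul]
        exact le_antisymm h5 (Nat.le_of_dvd hz hdv)
      have := (sum_eq_sum_iff_of_le hle).1 he
      refine ⟨(L : ZMod (a * L)), fun g hg => ?_⟩
      exact (ZMod.natCast_zmod_val g.2).symm.trans (congrArg (Nat.cast (R := ZMod (a * L))) (this g hg))
  obtain ⟨y, hy⟩ := hall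
  have hTu : (box a L \ S).image Prod.fst = univ := by
    rw [← card_eq_iff_eq_univ, ZMod.card, card_image_of_injOn, hcard]
    intro g hg g' hg' h
    exact Prod.ext h ((hy g (mem_coe.1 hg)).trans (hy g' (mem_coe.1 hg')).symm)
  apply sigma_ne a hev
  rw [← hTu, sum_image (fun g hg g' hg' h => Prod.ext h ((hy g hg).trans (hy g' hg').symm)),
    ← Prod.fst_sum, hT]

/-- **Main theorem.** -/
theorem result (n₁ n₂ L : ℕ) (h₁ : 1 < n₁) (h₂ : n₂ = n₁ * L) (hL : Odd L) :
    AddMonoid.exponent (ZMod n₁ × ZMod n₂) = n₂ ∧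
    (3 ≤ L → n₁ + n₂ - 1 ≤ tau (ZMod n₁ × ZMod n₂) n₂) ∧
    (Even n₁ → n₁ + n₂ ≤ tau (ZMod n₁ × ZMod n₂) n₂) := by
  subst h₂
  have hL0 : 0 < L := hL.pos
  have : NeZero n₁ := ⟨by omega⟩
  have : NeZero (n₁ * L) := ⟨Nat.mul_ne_zero (by omega) (by omega)⟩
  refine ⟨?_, fun h => lower1 n₁ L h₁ h hL, fun h => lower2 n₁ L h₁ hL0 hL h⟩
  rw [AddMonoid.exponent_prod, ZMod.exponent, ZMod.exponent]
  exact Nat.lcm_eq_right (dvd_mul_right _ _)

end Pool.Agent.Results.MP_f9a021_co.RankTwoLowerBound
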